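import Mathlib

/-!
# The Tribonacci Zeckendorf game

Player 2 has a winning strategy in the Tribonacci game on `n` exactly if `n` is different from
`2, 3, 6`; in particular for all `n ≥ 7`.

The proof is by strategy stealing.  Write `(a, b, c, d)` for the position with `a` ones, `b` twos,
`c` fours and `d` sevens, and suppose that Player 1 wins the game on `n`, where `n ≥ 10`.
The first move is forced, so the player to move loses at `(n-2, 1, 0, 0)` and hence wins at
`(n-4, 0, 1, 0)`.  The only option of the latter is `(n-6, 1, 1, 0)`, where the player to move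
loses, so the player to move wins at its options `(n-8, 0, 2, 0)` and `(n-7, 0, 0, 1)`.  The only
option of the latter is `(n-9, 1, 0, 1)`, where the player to move loses.  The options of
`(n-8, 0, 2, 0)` are `(n-7, 0, 0, 1)` and `(n-10, 1, 2, 0)`; so the player to move loses at
`(n-10, 1, 2, 0)`.  But this position has the option `(n-9, 1, 0, 1)`, a contradiction.
-/

set_option autoImplicit false

namespace Pool.Agent.Results.MP_7f8e47_co.PlayerTwoWinsH54

/-- The Tribonacci terms: `S 1 = 1`, `S 2 = 2`, `S 3 = 4` and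
`S (i + 1) = S i + S (i - 1) + S (i - 2)` for `i ≥ 3`.  (The value `S 0 = 0` is never used.) -/
def S : ℕ → ℕ
  | 0 => 0
  | 1 => 1
  | 2 => 2
  | 3 => 4
  | (n + 4) => S (n + 3) + S (n + 2) + S (n + 1)

/-- `Move P Q`: in the position `P` (a multiset of terms) the player to move may move to the
position `Q`.  The six constructors are the six rules of the game; `R` is the multiset of the
terms that are not touched by the move. -/
inductive Move : Multiset ℕ → Multiset ℕ → Prop
  | rule1 (R : Multiset ℕ) (i : ℕ) (hi : 3 ≤ i) :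
      Move (R + {S (i - 2), S (i - 1), S i}) (R + {S (i + 1)})
  | rule2 (R : Multiset ℕ) : Move (R + {S 1, S 1, S 2}) (R + {S 3})
  | rule3 (R : Multiset ℕ) : Move (R + {S 1, S 1}) (R + {S 2})
  | rule4 (R : Multiset ℕ) : Move (R + {S 2, S 2}) (R + {S 3})
  | rule5 (R : Multiset ℕ) : Move (R + {S 3, S 3}) (R + {S 4, S 1})
  | rule6 (R : Multiset ℕ) (i : ℕ) (hi : 4 ≤ i) :
      Move (R + {S i, S i}) (R + {S (i + 1), S (i - 3)})

/-- `Reach p σ n k P`: the position `P` can occur after `k` moves of a play of the game on `n` in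
which player `p` (`p = 1` or `p = 2`) follows the strategy `σ` (in a position `P` where player `p`
is to move, the strategy tells to move to `σ P`) and the other player moves arbitrarily.  The play
starts from `n` copies of `S 1`.  Player 1 is to move after an even number `k` of moves, Player 2
after an odd number, that is, player `k % 2 + 1` is to move after `k` moves. -/
inductive Reach (p : ℕ) (σ : Multiset ℕ → Multiset ℕ) (n : ℕ) : ℕ → Multiset ℕ → Prop
  | start : Reach p σ n 0 (Multiset.replicate n (S 1))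
  | own {k : ℕ} {P : Multiset ℕ} (hk : k % 2 + 1 = p) (h : Reach p σ n k P)
      (hP : Move P (σ P)) : Reach p σ n (k + 1) (σ P)
  | other {k : ℕ} {P Q : Multiset ℕ} (hk : k % 2 + 1 ≠ p) (h : Reach p σ n k P)
      (hPQ : Move P Q) : Reach p σ n (k + 1) Q

/-- Player `p` (`p = 1` or `p = 2`) has a winning strategy in the game on `n`: there is a strategy
`σ` such that in every play in which player `p` follows `σ`, whenever player `p` is to move the
strategy gives a legal move.  So player `p` never is without a move; as all plays are finite,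
player `p` makes the last move (normal play). -/
def HasWinningStrategy (p n : ℕ) : Prop :=
  ∃ σ : Multiset ℕ → Multiset ℕ, ∀ (k : ℕ) (P : Multiset ℕ), k % 2 + 1 = p → Reach p σ n k P →
    Move P (σ P)

/-! ### The sequence -/

lemma S1 : S 1 = 1 := rfl
lemma S2 : S 2 = 2 := rfl
lemma S3 : S 3 = 4 := rfl
lemma S4 : S 4 = 7 := rfl

lemma S_rec (i : ℕ) (hi : 3 ≤ i) : S (i + 1) = S i + S (i - 1) + S (i - 2) := by
  obtain ⟨j, rfl⟩ := Nat.exists_eq_add_of_le' hi
  show S (j + 4) = _
  rw [S]
  rfl

lemma S_pos : ∀ i : ℕ, 1 ≤ i → 1 ≤ S i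
  | 0 => by omega
  | 1 => by intro _; decide
  | 2 => by intro _; decide
  | 3 => by intro _; decide
  | (n + 4) => by
    intro _
    rw [S]
    have := S_pos (n + 3) (by omega)
    omega

lemma S_lt_succ : ∀ i : ℕ, 1 ≤ i → S i < S (i + 1)
  | 0 => by omega
  | 1 => by intro _; decide
  | 2 => by intro _; decide
  | 3 => by intro _; decide
  | (n + 4) => by
    intro _
    have h1 := S_pos (n + 3) (by omega)
    have h2 : S (n + 4 + 1) = S (n + 4) + S (n + 3) + S (n + 2) := rfl
    omega

lemma S_lt {i j : ℕ} (hi : 1 ≤ i) (hij : i < j) : S i < S j := by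
  induction j, hij using Nat.le_induction with
  | base => exact S_lt_succ i hi
  | succ j hj ih => exact ih.trans (S_lt_succ j (by omega))

lemma S_le {i j : ℕ} (hi : 1 ≤ i) (hij : i ≤ j) : S i ≤ S j := by
  rcases Nat.lt_or_ge i j with h | h
  · exact (S_lt hi h).le
  · have : i = j := le_antisymm hij h
    rw [this]

/-! ### All plays are finite -/

/-- sum of squares -/
def sq (P : Multiset ℕ) : ℕ := (P.map (fun x => x ^ 2)).sum

lemma sq_add (P Q : Multiset ℕ) : sq (P + Q) = sq P + sq Q := by
  simp [sq]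

lemma sq_le (P : Multiset ℕ) : sq P ≤ P.sum ^ 2 := by
  induction P using Multiset.induction_on with
  | empty => simp [sq]
  | cons a P ih =>
    have h : sq (a ::ₘ P) = a ^ 2 + sq P := by simp [sq]
    rw [h, Multiset.sum_cons]
    nlinarith [Nat.zero_le (a * P.sum)]

lemma move_sum {P Q : Multiset ℕ} (h : Move P Q) : Q.sum = P.sum ∧ sq P < sq Q := by
  cases h with
  | rule1 R i hi =>
    have h1 := S_rec i hi
    have h2 := S_pos i (by omega)
    have h3 := S_pos (i - 1) (by omega)
    constructor
    · simp [h1]; ring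
    · rw [sq_add, sq_add]
      simp only [sq, Multiset.insert_eq_cons, Multiset.map_cons, Multiset.map_singleton,
        Multiset.sum_cons, Multiset.sum_singleton, h1]
      have : 1 ≤ S i * S (i - 1) := Nat.mul_pos h2 h3
      nlinarith [Nat.zero_le (S i * S (i - 2)), Nat.zero_le (S (i - 1) * S (i - 2))]
  | rule2 R =>
    constructor
    · simp [S1, S2, S3]; omega
    · rw [sq_add, sq_add]
      simp [sq, S1, S2, S3]
  | rule3 R =>
    constructor
    · simp [S1, S2]; omega
    · rw [sq_add, sq_add]
      simp [sq, S1, S2]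
  | rule4 R =>
    constructor
    · simp [S2, S3]; omega
    · rw [sq_add, sq_add]
      simp [sq, S2, S3]
  | rule5 R =>
    constructor
    · simp [S1, S3, S4]; omega
    · rw [sq_add, sq_add]
      simp [sq, S1, S3, S4]
  | rule6 R i hi =>
    obtain ⟨j, rfl⟩ := Nat.exists_eq_add_of_le' hi
    have h1 : S (j + 4 + 1) = S (j + 4) + S (j + 3) + S (j + 2) := rfl
    have h2 : S (j + 4) = S (j + 3) + S (j + 2) + S (j + 1) := rfl
    have h3 := S_pos (j + 3) (by omega)
    have e : j + 4 - 3 = j + 1 := by omega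
    rw [e]
    constructor
    · simp [h1]; omega
    · rw [sq_add, sq_add]
      simp only [sq, Multiset.insert_eq_cons, Multiset.map_cons, Multiset.map_singleton,
        Multiset.sum_cons, Multiset.sum_singleton]
      rw [h1]
      generalize S (j + 4) = A at *
      generalize S (j + 3) = B at *
      generalize S (j + 2) = C at *
      generalize S (j + 1) = D at *
      subst h2
      nlinarith [Nat.zero_le (B * C), Nat.zero_le (B * D), Nat.zero_le (C * D), Nat.mul_pos h3 h3,
        Nat.zero_le (C * C)]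

/-- The game always ends. -/
theorem wf : WellFounded (fun Q P : Multiset ℕ => Move P Q) := by
  refine Subrelation.wf (r := InvImage (· < ·) (fun P : Multiset ℕ => P.sum ^ 2 - sq P)) ?_
    (InvImage.wf _ Nat.lt_wfRel.wf)
  intro Q P h
  obtain ⟨h1, h2⟩ := move_sum h
  have h3 := sq_le Q
  show Q.sum ^ 2 - sq Q < P.sum ^ 2 - sq P
  rw [h1] at h3 ⊢
  omega

/-! ### Outcomes -/

/-- the player to move wins -/
inductive N : Multiset ℕ → Prop
  | intro {P Q : Multiset ℕ} (h : Move P Q) (hQ : ∀ R, Move Q R → N R) : N P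

/-- the player to move loses -/
def L (P : Multiset ℕ) : Prop := ∀ Q, Move P Q → N Q

lemma N_iff {P : Multiset ℕ} : N P ↔ ∃ Q, Move P Q ∧ L Q := by
  constructor
  · intro h
    cases h with
    | intro h hQ => exact ⟨_, h, hQ⟩
  · rintro ⟨Q, h, hQ⟩
    exact N.intro h hQ

lemma not_both (P : Multiset ℕ) : N P → L P → False := by
  induction P using wf.induction with
  | _ P ih =>
    intro h1 h2
    obtain ⟨Q, hQ, hL⟩ := N_iff.1 h1
    exact ih Q hQ (h2 Q hQ) hL

lemma L_of_not_N {P : Multiset ℕ} (h : ¬ N P) : L P := by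
  induction P using wf.induction with
  | _ P ih =>
    intro Q hQ
    by_contra hn
    exact h (N_iff.2 ⟨Q, hQ, ih Q hQ hn⟩)

open Classical in
/-- the strategy: move to a position in which the player to move loses -/
noncomputable def strat (P : Multiset ℕ) : Multiset ℕ :=
  if h : ∃ Q, Move P Q ∧ L Q then h.choose else P

lemma strat_spec {P : Multiset ℕ} (h : N P) : Move P (strat P) ∧ L (strat P) := by
  have h' := N_iff.1 h
  rw [strat, dif_pos h']
  exact h'.choose_spec

/-- if the player who is to move at the start loses, Player 2 has a winning strategy -/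
lemma two_wins {n : ℕ} (h : L (Multiset.replicate n (S 1))) : HasWinningStrategy 2 n := by
  refine ⟨strat, ?_⟩
  have key : ∀ (k : ℕ) (P : Multiset ℕ), Reach 2 strat n k P →
      (k % 2 = 0 → L P) ∧ (k % 2 = 1 → N P) := by
    intro k P hr
    induction hr with
    | start => exact ⟨fun _ => h, fun h' => absurd h' (by norm_num)⟩
    | own hk hr hP ih =>
      refine ⟨fun _ => (strat_spec (ih.2 (by omega))).2, fun h' => ?_⟩
      omega
    | other hk hr hPQ ih =>
      refine ⟨fun h' => ?_, fun _ => ih.1 (by omega) _ hPQ⟩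
      omega
  intro k P hk hr
  exact (strat_spec ((key k P hr).2 (by omega))).1

/-- if the player who is to move at the start wins, Player 1 has a winning strategy -/
lemma one_wins {n : ℕ} (h : N (Multiset.replicate n (S 1))) : HasWinningStrategy 1 n := by
  refine ⟨strat, ?_⟩
  have key : ∀ (k : ℕ) (P : Multiset ℕ), Reach 1 strat n k P →
      (k % 2 = 0 → N P) ∧ (k % 2 = 1 → L P) := by
    intro k P hr
    induction hr with
    | start => exact ⟨fun _ => h, fun h' => absurd h' (by norm_num)⟩
    | own hk hr hP ih =>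
      refine ⟨fun h' => ?_, fun _ => (strat_spec (ih.1 (by omega))).2⟩
      omega
    | other hk hr hPQ ih =>
      refine ⟨fun _ => ih.2 (by omega) _ hPQ, fun h' => ?_⟩
      omega
  intro k P hk hr
  exact (strat_spec ((key k P hr).1 (by omega))).1

/-- not both players have a winning strategy -/
lemma not_both_win {n : ℕ} (h1 : HasWinningStrategy 1 n) (h2 : HasWinningStrategy 2 n) :
    False := by
  obtain ⟨σ, hσ⟩ := h1
  obtain ⟨τ, hτ⟩ := h2
  let x : ℕ → Multiset ℕ := fun k => Nat.rec (Multiset.replicate n (S 1))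
    (fun k P => if k % 2 = 0 then σ P else τ P) k
  have x0 : x 0 = Multiset.replicate n (S 1) := rfl
  have xs : ∀ k, x (k + 1) = if k % 2 = 0 then σ (x k) else τ (x k) := fun _ => rfl
  have key : ∀ k, Reach 1 σ n k (x k) ∧ Reach 2 τ n k (x k) := by
    intro k
    induction k with
    | zero => exact ⟨Reach.start, Reach.start⟩
    | succ k ih =>
      rcases Nat.mod_two_eq_zero_or_one k with hk | hk
      · have hm : Move (x k) (x (k + 1)) := by
          rw [xs, if_pos hk]
          exact hσ k _ (by omega) ih.1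
        refine ⟨?_, Reach.other (by omega) ih.2 hm⟩
        rw [xs, if_pos hk] at hm ⊢
        exact Reach.own (by omega) ih.1 hm
      · have hm : Move (x k) (x (k + 1)) := by
          rw [xs, if_neg (by omega)]
          exact hτ k _ (by omega) ih.2
        refine ⟨Reach.other (by omega) ih.1 hm, ?_⟩
        rw [xs, if_neg (by omega)] at hm ⊢
        exact Reach.own (by omega) ih.2 hm
  have hm : ∀ k, Move (x k) (x (k + 1)) := by
    intro k
    rcases Nat.mod_two_eq_zero_or_one k with hk | hk
    · rw [xs, if_pos hk]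
      exact hσ k _ (by omega) (key k).1
    · rw [xs, if_neg (by omega)]
      exact hτ k _ (by omega) (key k).2
  have : IsWellFounded (Multiset ℕ) (fun Q P => Move P Q) := ⟨wf⟩
  obtain ⟨m, hm'⟩ := WellFounded.not_rel_apply_succ (r := fun Q P : Multiset ℕ => Move P Q) x
  exact hm' (hm m)

/-! ### The positions which are needed -/

/-- the position with `a` ones, `b` twos, `c` fours and `d` sevens -/
def pos (a b c d : ℕ) : Multiset ℕ :=
  Multiset.replicate a 1 + Multiset.replicate b 2 + Multiset.replicate c 4 +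
    Multiset.replicate d 7

lemma pos_add (a b c d a' b' c' d' : ℕ) :
    pos a b c d + pos a' b' c' d' = pos (a + a') (b + b') (c + c') (d + d') := by
  simp only [pos, Multiset.replicate_add]
  abel

lemma mem_pos {a b c d x : ℕ} (h : x ∈ pos a b c d) : x = 1 ∨ x = 2 ∨ x = 4 ∨ x = 7 := by
  simp only [pos, Multiset.mem_add] at h
  rcases h with ((h | h) | h) | h
  · exact Or.inl (Multiset.eq_of_mem_replicate h)
  · exact Or.inr (Or.inl (Multiset.eq_of_mem_replicate h))
  · exact Or.inr (Or.inr (Or.inl (Multiset.eq_of_mem_replicate h)))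
  · exact Or.inr (Or.inr (Or.inr (Multiset.eq_of_mem_replicate h)))

lemma count_pos (a b c d : ℕ) : (pos a b c d).count 1 = a ∧ (pos a b c d).count 2 = b ∧
    (pos a b c d).count 4 = c ∧ (pos a b c d).count 7 = d := by
  refine ⟨?_, ?_, ?_, ?_⟩ <;> simp [pos, Multiset.count_replicate]

lemma pos_sub {a b c d a' b' c' d' : ℕ} {R : Multiset ℕ}
    (h : pos a b c d = R + pos a' b' c' d') :
    a' ≤ a ∧ b' ≤ b ∧ c' ≤ c ∧ d' ≤ d ∧ R = pos (a - a') (b - b') (c - c') (d - d') := by
  obtain ⟨h1, h2, h3, h4⟩ := count_pos a b c d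
  obtain ⟨h1', h2', h3', h4'⟩ := count_pos a' b' c' d'
  rw [h, Multiset.count_add] at h1 h2 h3 h4
  have ha : a' ≤ a := by omega
  have hb : b' ≤ b := by omega
  have hc : c' ≤ c := by omega
  have hd : d' ≤ d := by omega
  refine ⟨ha, hb, hc, hd, ?_⟩
  have h5 : pos (a - a') (b - b') (c - c') (d - d') + pos a' b' c' d' = R + pos a' b' c' d' := by
    rw [pos_add, ← h]
    congr 1 <;> omega
  exact (add_right_cancel h5).symm

/-- the options of a position of ones, twos, fours and sevens -/
lemma options {a b c d : ℕ} (hd : d ≤ 1) (hbcd : ¬ (1 ≤ b ∧ 1 ≤ c ∧ 1 ≤ d)) {Q : Multiset ℕ}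
    (h : Move (pos a b c d) Q) :
    (1 ≤ a ∧ 1 ≤ b ∧ 1 ≤ c ∧ Q = pos (a - 1) (b - 1) (c - 1) (d + 1)) ∨
    (2 ≤ a ∧ 1 ≤ b ∧ Q = pos (a - 2) (b - 1) (c + 1) d) ∨
    (2 ≤ a ∧ Q = pos (a - 2) (b + 1) c d) ∨
    (2 ≤ b ∧ Q = pos a (b - 2) (c + 1) d) ∨
    (2 ≤ c ∧ Q = pos (a + 1) b (c - 2) (d + 1)) := by
  generalize hP : pos a b c d = P at h
  cases h with
  | rule1 R i hi =>
    have hm : S i ∈ pos a b c d := by rw [hP]; simp
    rcases Nat.lt_or_ge i 5 with h5 | h5
    · interval_cases i
      · have e : ({S (3 - 2), S (3 - 1), S 3} : Multiset ℕ) = pos 1 1 1 0 := by decide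
        rw [e] at hP
        obtain ⟨h1, h2, h3, -, rfl⟩ := pos_sub hP
        refine Or.inl ⟨h1, h2, h3, ?_⟩
        have e' : ({S (3 + 1)} : Multiset ℕ) = pos 0 0 0 1 := by decide
        rw [e', pos_add]
        rfl
      · have e : ({S (4 - 2), S (4 - 1), S 4} : Multiset ℕ) = pos 0 1 1 1 := by decide
        rw [e] at hP
        obtain ⟨h1, h2, h3, h4, rfl⟩ := pos_sub hP
        exact absurd ⟨h2, h3, h4⟩ hbcd
    · have h6 : S 5 ≤ S i := S_le (by norm_num) h5
      have h7 : S 5 = 13 := rfl
      have := mem_pos hm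
      omega
  | rule2 R =>
    have e : ({S 1, S 1, S 2} : Multiset ℕ) = pos 2 1 0 0 := by decide
    rw [e] at hP
    obtain ⟨h1, h2, h3, -, rfl⟩ := pos_sub hP
    refine Or.inr (Or.inl ⟨h1, h2, ?_⟩)
    have e' : ({S 3} : Multiset ℕ) = pos 0 0 1 0 := by decide
    rw [e', pos_add]
    rfl
  | rule3 R =>
    have e : ({S 1, S 1} : Multiset ℕ) = pos 2 0 0 0 := by decide
    rw [e] at hP
    obtain ⟨h1, h2, h3, -, rfl⟩ := pos_sub hP
    refine Or.inr (Or.inr (Or.inl ⟨h1, ?_⟩))
    have e' : ({S 2} : Multiset ℕ) = pos 0 1 0 0 := by decide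
    rw [e', pos_add]
    rfl
  | rule4 R =>
    have e : ({S 2, S 2} : Multiset ℕ) = pos 0 2 0 0 := by decide
    rw [e] at hP
    obtain ⟨h1, h2, h3, -, rfl⟩ := pos_sub hP
    refine Or.inr (Or.inr (Or.inr (Or.inl ⟨h2, ?_⟩)))
    have e' : ({S 3} : Multiset ℕ) = pos 0 0 1 0 := by decide
    rw [e', pos_add]
    rfl
  | rule5 R =>
    have e : ({S 3, S 3} : Multiset ℕ) = pos 0 0 2 0 := by decide
    rw [e] at hP
    obtain ⟨h1, h2, h3, -, rfl⟩ := pos_sub hP
    refine Or.inr (Or.inr (Or.inr (Or.inr ⟨h3, ?_⟩)))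
    have e' : ({S 4, S 1} : Multiset ℕ) = pos 1 0 0 1 := by decide
    rw [e', pos_add]
    rfl
  | rule6 R i hi =>
    have hm : S i ∈ pos a b c d := by rw [hP]; simp
    rcases Nat.lt_or_ge i 5 with h5 | h5
    · interval_cases i
      have e : ({S 4, S 4} : Multiset ℕ) = pos 0 0 0 2 := by decide
      rw [e] at hP
      obtain ⟨h1, h2, h3, h4, rfl⟩ := pos_sub hP
      omega
    · have h6 : S 5 ≤ S i := S_le (by norm_num) h5
      have h7 : S 5 = 13 := rfl
      have := mem_pos hm
      omega

lemma move_rule1 (a b c d : ℕ) : Move (pos (a + 1) (b + 1) (c + 1) d) (pos a b c (d + 1)) := by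
  have h := Move.rule1 (pos a b c d) 3 le_rfl
  have e : ({S (3 - 2), S (3 - 1), S 3} : Multiset ℕ) = pos 1 1 1 0 := by decide
  have e' : ({S (3 + 1)} : Multiset ℕ) = pos 0 0 0 1 := by decide
  rw [e, e', pos_add, pos_add] at h
  exact h

lemma move_rule2 (a b c d : ℕ) : Move (pos (a + 2) (b + 1) c d) (pos a b (c + 1) d) := by
  have h := Move.rule2 (pos a b c d)
  have e : ({S 1, S 1, S 2} : Multiset ℕ) = pos 2 1 0 0 := by decide
  have e' : ({S 3} : Multiset ℕ) = pos 0 0 1 0 := by decide
  rw [e, e', pos_add, pos_add] at h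
  exact h

lemma move_rule3 (a b c d : ℕ) : Move (pos (a + 2) b c d) (pos a (b + 1) c d) := by
  have h := Move.rule3 (pos a b c d)
  have e : ({S 1, S 1} : Multiset ℕ) = pos 2 0 0 0 := by decide
  have e' : ({S 2} : Multiset ℕ) = pos 0 1 0 0 := by decide
  rw [e, e', pos_add, pos_add] at h
  exact h

lemma move_rule5 (a b c d : ℕ) : Move (pos a b (c + 2) d) (pos (a + 1) b c (d + 1)) := by
  have h := Move.rule5 (pos a b c d)
  have e : ({S 3, S 3} : Multiset ℕ) = pos 0 0 2 0 := by decide
  have e' : ({S 4, S 1} : Multiset ℕ) = pos 1 0 0 1 := by decide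
  rw [e, e', pos_add, pos_add] at h
  exact h

lemma start_eq (n : ℕ) : Multiset.replicate n (S 1) = pos n 0 0 0 := by
  simp [pos, S1]

/-! ### Outcomes of the positions -/

/-- the start for large `n`: strategy stealing -/
lemma start_large (m : ℕ) : L (pos (m + 10) 0 0 0) := by
  intro Q hQ
  have hA : Q = pos (m + 8) 1 0 0 := by
    rcases options (by omega) (by omega) hQ with h | h | h | h | h
    · omega
    · omega
    · exact h.2
    · omega
    · omega
  subst hA
  by_contra hN
  have hL : L (pos (m + 8) 1 0 0) := L_of_not_N hN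
  -- the position with one four
  have hX : N (pos (m + 6) 0 1 0) := hL _ (move_rule2 (m + 6) 0 0 0)
  obtain ⟨C, hXC, hC⟩ := N_iff.1 hX
  have hC' : C = pos (m + 4) 1 1 0 := by
    rcases options (by omega) (by omega) hXC with h | h | h | h | h
    · omega
    · omega
    · exact h.2
    · omega
    · omega
  subst hC'
  have hE2 : N (pos (m + 2) 0 2 0) := hC _ (move_rule2 (m + 2) 0 1 0)
  have hE3 : N (pos (m + 3) 0 0 1) := hC _ (move_rule1 (m + 3) 0 0 0)
  obtain ⟨G, hG, hLG⟩ := N_iff.1 hE3
  have hG' : G = pos (m + 1) 1 0 1 := by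
    rcases options (by omega) (by omega) hG with h | h | h | h | h
    · omega
    · omega
    · exact h.2
    · omega
    · omega
  subst hG'
  obtain ⟨H, hH, hLH⟩ := N_iff.1 hE2
  rcases options (by omega) (by omega) hH with h | h | h | h | h
  · omega
  · omega
  · have hH' : H = pos m 1 2 0 := h.2
    subst hH'
    exact not_both _ (hLH _ (move_rule5 m 1 0 0)) hLG
  · omega
  · have hH' : H = pos (m + 3) 0 0 1 := h.2
    subst hH'
    exact not_both _ hE3 hLH

/-- if the position after the first move is won by the player to move, the start is lost -/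
lemma start_of {n : ℕ} (h : 2 ≤ n → N (pos (n - 2) 1 0 0)) : L (pos n 0 0 0) := by
  intro Q hQ
  rcases options (by omega) (by omega) hQ with h' | h' | h' | h' | h'
  · omega
  · omega
  · rw [h'.2]
    exact h h'.1
  · omega
  · omega

lemma terminal {a b c d : ℕ} (ha : a ≤ 1) (hb : b ≤ 1) (hc : c ≤ 1) (hd : d ≤ 1)
    (habc : ¬ (1 ≤ a ∧ 1 ≤ b ∧ 1 ≤ c)) (hbcd : ¬ (1 ≤ b ∧ 1 ≤ c ∧ 1 ≤ d)) :
    L (pos a b c d) := by
  intro Q hQ
  rcases options hd hbcd hQ with h | h | h | h | h <;> omega

lemma start_small {n : ℕ} (hn : n < 10) (h2 : n ≠ 2) (h3 : n ≠ 3) (h6 : n ≠ 6) :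
    L (pos n 0 0 0) := by
  apply start_of
  intro hn2
  interval_cases n
  · omega
  · omega
  · -- 4
    exact N_iff.2 ⟨_, move_rule2 0 0 0 0, terminal (by omega) (by omega) (by omega) (by omega)
      (by omega) (by omega)⟩
  · -- 5
    exact N_iff.2 ⟨_, move_rule2 1 0 0 0, terminal (by omega) (by omega) (by omega) (by omega)
      (by omega) (by omega)⟩
  · omega
  · -- 7
    refine N_iff.2 ⟨_, move_rule2 3 0 0 0, ?_⟩
    intro Q hQ
    rcases options (by omega) (by omega) hQ with h | h | h | h | h
    · omega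
    · omega
    · rw [h.2]
      exact N_iff.2 ⟨_, move_rule1 0 0 0 0, terminal (by omega) (by omega) (by omega) (by omega)
        (by omega) (by omega)⟩
    · omega
    · omega
  · -- 8
    refine N_iff.2 ⟨_, move_rule2 4 0 0 0, ?_⟩
    intro Q hQ
    rcases options (by omega) (by omega) hQ with h | h | h | h | h
    · omega
    · omega
    · rw [h.2]
      exact N_iff.2 ⟨_, move_rule1 1 0 0 0, terminal (by omega) (by omega) (by omega) (by omega)
        (by omega) (by omega)⟩
    · omega
    · omega
  · -- 9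
    refine N_iff.2 ⟨_, move_rule2 5 0 0 0, ?_⟩
    intro Q hQ
    rcases options (by omega) (by omega) hQ with h | h | h | h | h
    · omega
    · omega
    · rw [h.2]
      -- `1 1 1 2 4` has the option `1 4 4`, in which the player to move loses
      refine N_iff.2 ⟨_, move_rule2 1 0 1 0, ?_⟩
      intro Q hQ
      rcases options (by omega) (by omega) hQ with h | h | h | h | h
      · omega
      · omega
      · omega
      · omega
      · rw [h.2]
        exact N_iff.2 ⟨_, move_rule3 0 0 0 1, terminal (by omega) (by omega) (by omega)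
          (by omega) (by omega) (by omega)⟩
    · omega
    · omega

lemma start_two : N (pos 2 0 0 0) :=
  N_iff.2 ⟨_, move_rule3 0 0 0 0, terminal (by omega) (by omega) (by omega) (by omega)
    (by omega) (by omega)⟩

lemma start_three : N (pos 3 0 0 0) :=
  N_iff.2 ⟨_, move_rule3 1 0 0 0, terminal (by omega) (by omega) (by omega) (by omega)
    (by omega) (by omega)⟩

lemma start_six : N (pos 6 0 0 0) := by
  refine N_iff.2 ⟨_, move_rule3 4 0 0 0, ?_⟩
  have hC : L (pos 0 1 1 0) := terminal (by omega) (by omega) (by omega) (by omega)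
    (by omega) (by omega)
  intro Q hQ
  rcases options (by omega) (by omega) hQ with h | h | h | h | h
  · omega
  · rw [h.2.2]
    exact N_iff.2 ⟨_, move_rule3 0 0 1 0, hC⟩
  · rw [h.2]
    exact N_iff.2 ⟨_, move_rule2 0 1 0 0, hC⟩
  · omega
  · omega

/-- **Theorem.** The Tribonacci game always ends, and for every `n` exactly one of the players has
a winning strategy: Player 1 if `n` is `2`, `3` or `6`, and Player 2 for all other `n`.  In
particular Player 2 has a winning strategy for every `n ≥ 7`. -/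
theorem result :
    WellFounded (fun Q P : Multiset ℕ => Move P Q) ∧
    (∀ n : ℕ, HasWinningStrategy 2 n ↔ (n ≠ 2 ∧ n ≠ 3 ∧ n ≠ 6)) ∧
    (∀ n : ℕ, HasWinningStrategy 1 n ↔ (n = 2 ∨ n = 3 ∨ n = 6)) ∧
    (∃ N : ℕ, ∀ n ≥ N, HasWinningStrategy 2 n) := by
  have h2 : ∀ n : ℕ, n ≠ 2 ∧ n ≠ 3 ∧ n ≠ 6 → HasWinningStrategy 2 n := by
    intro n hn
    apply two_wins
    rw [start_eq]
    rcases Nat.lt_or_ge n 10 with h | h
    · exact start_small h hn.1 hn.2.1 hn.2.2
    · obtain ⟨m, rfl⟩ := Nat.exists_eq_add_of_le' h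
      exact start_large m
  have h1 : ∀ n : ℕ, (n = 2 ∨ n = 3 ∨ n = 6) → HasWinningStrategy 1 n := by
    intro n hn
    apply one_wins
    rw [start_eq]
    rcases hn with rfl | rfl | rfl
    · exact start_two
    · exact start_three
    · exact start_six
  refine ⟨wf, fun n => ⟨fun h => ?_, h2 n⟩, fun n => ⟨fun h => ?_, h1 n⟩, 7, fun n hn => ?_⟩
  · by_contra hc
    exact not_both_win (h1 n (by omega)) h
  · by_contra hc
    exact not_both_win h (h2 n (by omega))
  · exact h2 n (by omega)

end Pool.Agent.Results.MP_7f8e47_co.PlayerTwoWinsH54
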